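import Pool.Agent.X219.ST.RN2

/-!
MP_6e9b54_lc, Q1: the answer is no.

`pw L A` : the topology of pointwise convergence on the monoid `A →[L] A` of endomorphisms.
`SemigroupTop τ` : composition of endomorphisms is jointly continuous for `τ`.
`Oligo L A` : for every `n` the automorphism group of `A` has finitely many orbits on `n`-tuples.
-/

namespace Pool.Agent.Results.MP_6e9b54_lc.PointwiseMinimal

open FirstOrder FirstOrder.Language
open Pool.Agent.X219.ST

/-- (1) Countable language, `ℵ₀`-categorical complete theory.
(2) Any language, oligomorphic automorphism group. -/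
theorem result :
    (∀ (L : FirstOrder.Language.{0, 0}) (A : Type) [L.Structure A] [Countable A] [Infinite A],
      L.card ≤ Cardinal.aleph0.{0} →
      Cardinal.Categorical Cardinal.aleph0.{0} (L.completeTheory A) →
      ∀ τ : TopologicalSpace (A →[L] A), @T2Space (A →[L] A) τ → SemigroupTop τ →
        (∀ U : Set (A →[L] A), @IsOpen (A →[L] A) τ U → @IsOpen (A →[L] A) (pw L A) U) →
        τ = pw L A) ∧
    (∀ (L : FirstOrder.Language.{0, 0}) (A : Type) [L.Structure A] [Countable A] [Infinite A],
      Oligo L A →
      ∀ τ : TopologicalSpace (A →[L] A), @T2Space (A →[L] A) τ → SemigroupTop τ →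
        (∀ U : Set (A →[L] A), @IsOpen (A →[L] A) τ U → @IsOpen (A →[L] A) (pw L A) U) →
        τ = pw L A) := by
  refine ⟨?_, ?_⟩
  · intro L A _ _ _ hL hcat τ hT hc hle
    exact minimal (oligo_of_categorical hL hcat) τ hT hc hle
  · intro L A _ _ _ hA τ hT hc hle
    exact minimal hA τ hT hc hle

end Pool.Agent.Results.MP_6e9b54_lc.PointwiseMinimal
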